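import Pool.Agent.X85.OJ.Orb

set_option autoImplicit false

open Real Set Filter Topology MeasureTheory
open scoped ContDiff

namespace Pool.Agent.X85.OJ

section

variable {z : ℝ → ℝ × ℝ} (hz : ∀ t, HasDerivAt z (P (z t).1 (z t).2, Q (z t).1 (z t).2) t)
  {T : ℝ} (hT : 0 < T) (hp : ∀ t, z (t + T) = z t) (hn : ¬ ∃ p, ∀ t, z t = p)

include hz hT hp hn

/-- a non-constant periodic solution lies on the curve `H = 0` -/
lemma HH_zero (t : ℝ) : HH (z t).1 (z t).2 = 0 := by
  have hd := HH_hasDerivAt hz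
  set h : ℝ → ℝ := fun t => HH (z t).1 (z t).2 with hh
  have hE : ∀ t, HasDerivAt (fun t => h t ^ 2) (4 * Xi (z t).1 ^ 2 * h t ^ 2) t := fun t => by
    refine ((hd t).pow 2).congr_deriv ?_
    push_cast
    ring
  have hmono : Monotone (fun t => h t ^ 2) :=
    monotone_of_deriv_nonneg (fun t => (hE t).differentiableAt) fun t => by
      rw [(hE t).deriv]; positivity
  have hper : Function.Periodic (fun t => h t ^ 2) T := fun t => by
    simp only [hh, hp]
  have hconst := const_of_mono_periodic hmono hT hper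
  by_contra hne
  have h0 : h 0 ^ 2 ≠ 0 := by
    rw [← hconst t]
    exact pow_ne_zero 2 hne
  have hxi : ∀ r, Xi (z r).1 = 0 := fun r => by
    have h1 : HasDerivAt (fun t => h t ^ 2) 0 r := by
      have : (fun t => h t ^ 2) = fun _ => h 0 ^ 2 := funext hconst
      rw [this]
      exact hasDerivAt_const r _
    have h2 := (hE r).unique h1
    have h3 : h r ^ 2 ≠ 0 := by rw [hconst r]; exact h0
    have h4 : Xi (z r).1 ^ 2 = 0 := by
      rcases mul_eq_zero.1 h2 with h5 | h5
      · linarith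
      · exact absurd h5 h3
    exact pow_eq_zero_iff (two_ne_zero) |>.1 h4
  have hw : ∀ r, a (Xi (z r).1) - (z r).2 = 0 := fun r => by
    have h1 := xi_hasDerivAt hz r
    have h2 : HasDerivAt (fun t => Xi (z t).1) 0 r := by
      have : (fun t => Xi (z t).1) = fun _ => (0 : ℝ) := funext hxi
      rw [this]
      exact hasDerivAt_const r _
    exact h1.unique h2
  apply hn
  refine ⟨(prim c 0, a 0), fun r => ?_⟩
  have h1 := prim_Xi (z r).1
  have h2 := hw r
  rw [hxi r] at h1 h2
  refine Prod.ext h1.symm ?_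
  change (z r).2 = a 0
  linarith

/-- it passes through a point of the solution `z1` -/
lemma exists_meet : ∃ t₀, z1 t₀ = z 0 := by
  have h := HH_zero hz hT hp hn 0
  unfold HH at h
  set ξ := Xi (z 0).1 with hξ
  set v := (a ξ - (z 0).2) + ξ * (1 - ξ ^ 2) with hv
  have hone : v ^ 2 + ξ ^ 2 = 1 := by linarith
  set ζ : ℂ := ⟨v, ξ⟩ with hζ
  have hnorm : ‖ζ‖ = 1 := by
    rw [Complex.norm_def, Complex.normSq_apply]
    rw [Real.sqrt_eq_one]
    simp only [hζ]
    linarith
  have hne : ζ ≠ 0 := by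
    intro h0
    rw [h0, norm_zero] at hnorm
    exact zero_ne_one hnorm
  have hsin : sin (Complex.arg ζ) = ξ := by rw [Complex.sin_arg, hnorm, div_one]
  have hcos : cos (Complex.arg ζ) = v := by rw [Complex.cos_arg hne, hnorm, div_one]
  refine ⟨prim hh (Complex.arg ζ), ?_⟩
  have h1 : prim c ξ = (z 0).1 := prim_Xi _
  unfold z1
  rw [Th_prim, hsin, hcos]
  refine Prod.ext h1 ?_
  change a ξ - (v - ξ * v ^ 2) = (z 0).2
  have h3 : v ^ 2 = 1 - ξ ^ 2 := by linarith
  rw [h3, hv]
  ring

/-- its orbit is the orbit of `z1` -/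
lemma range_eq : range z = range z1 := by
  obtain ⟨t₀, ht₀⟩ := exists_meet hz hT hp hn
  have hzc : Continuous z := continuous_iff_continuousAt.2 fun t => (hz t).continuousAt
  have hz1c : Continuous z1 := continuous_iff_continuousAt.2 fun t => (z1_hasDerivAt t).continuousAt
  have hb1 : Bornology.IsBounded (range z) :=
    (Function.Periodic.compact_of_continuous (c := T) hp hT.ne' hzc).isBounded
  have hb2 : Bornology.IsBounded (range z1) :=
    (Function.Periodic.compact_of_continuous (c := TT) z1_periodic TT_pos.ne' hz1c).isBounded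
  obtain ⟨R, hR⟩ := (hb1.union hb2).subset_closedBall (0 : ℝ × ℝ)
  have hF : ContDiff ℝ ∞ (fun p : ℝ × ℝ => (P p.1 p.2, Q p.1 p.2)) := P_contDiff.prodMk Q_contDiff
  obtain ⟨K, hK⟩ := (hF.contDiffOn (s := Metric.closedBall (0 : ℝ × ℝ) R)).exists_lipschitzOnWith
    (by simp) (convex_closedBall _ _) (isCompact_closedBall _ _)
  have huniq : z = fun t => z1 (t + t₀) := by
    refine ODE_solution_unique_univ (v := fun _ p => (P p.1 p.2, Q p.1 p.2))
      (s := fun _ => Metric.closedBall (0 : ℝ × ℝ) R) (K := K) (t₀ := 0) (fun _ => hK)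
      (fun t => ⟨hz t, hR (Or.inl (mem_range_self t))⟩)
      (fun t => ⟨?_, hR (Or.inr (mem_range_self _))⟩) ?_
    · exact (z1_hasDerivAt (t + t₀)).comp_add_const t t₀
    · simp only [zero_add]
      exact ht₀.symm
  rw [huniq]
  ext p
  constructor
  · rintro ⟨t, rfl⟩
    exact ⟨t + t₀, rfl⟩
  · rintro ⟨t, rfl⟩
    exact ⟨t - t₀, by simp⟩

end

end Pool.Agent.X85.OJ
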