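import Pool.Agent.X85.OJ.Fun

set_option autoImplicit false

open Real Set Filter Topology MeasureTheory
open scoped ContDiff

namespace Pool.Agent.X85.OJ

/-- the first component of the vector field -/
noncomputable def P (x y : ℝ) : ℝ := c (Xi x) * (a (Xi x) - y)
/-- the second component of the vector field -/
noncomputable def Q (x y : ℝ) : ℝ := g (Xi x) + s (Xi x) * (a (Xi x) - y)

lemma P_contDiff : ContDiff ℝ ∞ (fun z : ℝ × ℝ => P z.1 z.2) := by
  have h1 : ContDiff ℝ ∞ (fun z : ℝ × ℝ => Xi z.1) := Xi_contDiff.comp contDiff_fst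
  exact (c_contDiff.comp h1).mul ((a_contDiff.comp h1).sub contDiff_snd)

lemma Q_contDiff : ContDiff ℝ ∞ (fun z : ℝ × ℝ => Q z.1 z.2) := by
  have h1 : ContDiff ℝ ∞ (fun z : ℝ × ℝ => Xi z.1) := Xi_contDiff.comp contDiff_fst
  exact (g_contDiff.comp h1).add ((s_contDiff.comp h1).mul ((a_contDiff.comp h1).sub contDiff_snd))

lemma s_differentiable (u : ℝ) : HasDerivAt s (deriv s u) u :=
  (s_contDiff.differentiable (by simp) u).hasDerivAt
lemma c_differentiable (u : ℝ) : HasDerivAt c (deriv c u) u :=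
  (c_contDiff.differentiable (by simp) u).hasDerivAt

lemma cc_ss (u : ℝ) : c u * deriv c u + s u * deriv s u = 0 := by
  have h1 : HasDerivAt (fun u => c u ^ 2 + s u ^ 2)
      (2 * c u ^ (2 - 1) * deriv c u + 2 * s u ^ (2 - 1) * deriv s u) u := by
    have := ((c_differentiable u).pow 2).add ((s_differentiable u).pow 2)
    exact_mod_cast this
  have h2 : (fun u => c u ^ 2 + s u ^ 2) = fun _ => (1 : ℝ) := by
    funext u; rw [c_sq]; ring
  rw [h2] at h1
  have h3 := h1.unique (hasDerivAt_const u (1 : ℝ))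
  norm_num at h3
  linarith

lemma orthogonal (x y : ℝ) :
    deriv (fun t => P t y) x * deriv (fun t => P x t) y +
      deriv (fun t => Q t y) x * deriv (fun t => Q x t) y = 0 := by
  have hX := Xi_hasDerivAt x
  have hc := (c_differentiable (Xi x)).comp x hX
  have hs := (s_differentiable (Xi x)).comp x hX
  have ha := ((a_hasDerivAt (Xi x)).comp x hX).sub_const y
  have hg := (g_hasDerivAt (Xi x)).comp x hX
  have hPx := hc.mul ha
  have hQx := hg.add (hs.mul ha)
  have hy : HasDerivAt (fun t : ℝ => a (Xi x) - t) (-1) y := by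
    simpa using (hasDerivAt_id y).const_sub (a (Xi x))
  have hPy : HasDerivAt (fun t => P x t) (c (Xi x) * (-1)) y := hy.const_mul (c (Xi x))
  have hQy : HasDerivAt (fun t => Q x t) (s (Xi x) * (-1)) y :=
    (hy.const_mul (s (Xi x))).const_add (g (Xi x))
  have e1 : deriv (fun t => P t y) x = _ := hPx.deriv
  have e2 : deriv (fun t => Q t y) x = _ := hQx.deriv
  rw [e1, e2, hPy.deriv, hQy.deriv]
  have h1 := cc_ss (Xi x)
  have h2 := c_sq (Xi x)
  have h3 := (c_pos (Xi x)).ne'
  simp only [Function.comp_apply]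
  have h4 : c (Xi x) * (1 / c (Xi x)) = 1 := by field_simp
  generalize 1 / c (Xi x) = r at *
  generalize a (Xi x) - y = w at *
  linear_combination (-(w * r)) * h1 + (s (Xi x) * g' (Xi x) * r) * h2

end Pool.Agent.X85.OJ
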