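import Pool.Agent.X85.OJ.Inv

set_option autoImplicit false

open Real Set Filter Topology MeasureTheory
open scoped ContDiff

namespace Pool.Agent.X85.OJ

noncomputable def den (u : ℝ) : ℝ := 2 - 3 * u ^ 2 + 5 * u ^ 4
noncomputable def s (u : ℝ) : ℝ := (1 - 4 * u ^ 2) / den u
noncomputable def c (u : ℝ) : ℝ := √(1 - s u ^ 2)
noncomputable def g (u : ℝ) : ℝ := u - u ^ 3 + u ^ 5
noncomputable def g' (u : ℝ) : ℝ := 1 - 3 * u ^ 2 + 5 * u ^ 4
noncomputable def a (u : ℝ) : ℝ := - prim (fun t => s t * g' t) u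

lemma den_pos (u : ℝ) : 0 < den u := by
  unfold den; nlinarith [sq_nonneg (u ^ 2 - 3 / 10)]

lemma s_mul (u : ℝ) : s u * (1 + g' u) = 1 - 4 * u ^ 2 := by
  have : 1 + g' u = den u := by unfold g' den; ring
  rw [this, s, div_mul_cancel₀ _ (den_pos u).ne']

lemma s_abs (u : ℝ) : |s u| ≤ 4 / 5 := by
  rw [s, abs_div, abs_of_pos (den_pos u), div_le_iff₀ (den_pos u), abs_le]
  constructor
  · unfold den; nlinarith [sq_nonneg (u ^ 2 - 4 / 5), sq_nonneg u]
  · unfold den; nlinarith [sq_nonneg (u ^ 2), sq_nonneg u]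

lemma s_sq (u : ℝ) : s u ^ 2 ≤ 16 / 25 := by
  have := s_abs u
  rw [← sq_abs]
  nlinarith [abs_nonneg (s u)]

lemma s_contDiff : ContDiff ℝ ∞ s := by
  unfold s
  refine ContDiff.div (by fun_prop) ?_ fun u => (den_pos u).ne'
  unfold den
  fun_prop

lemma g_contDiff : ContDiff ℝ ∞ g := by unfold g; fun_prop
lemma g'_contDiff : ContDiff ℝ ∞ g' := by unfold g'; fun_prop

lemma g_hasDerivAt (u : ℝ) : HasDerivAt g (g' u) u := by
  have h := ((hasDerivAt_id u).sub (hasDerivAt_pow 3 u)).add (hasDerivAt_pow 5 u)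
  have e : g' u = 1 - ((3 : ℕ) : ℝ) * u ^ (3 - 1) + ((5 : ℕ) : ℝ) * u ^ (5 - 1) := by
    unfold g'; norm_num
  rw [e]
  exact h

lemma c_contDiff : ContDiff ℝ ∞ c := by
  unfold c
  refine ContDiff.sqrt (contDiff_const.sub (s_contDiff.pow 2)) fun u => ?_
  have := s_sq u
  linarith

lemma c_sq (u : ℝ) : c u ^ 2 = 1 - s u ^ 2 := by
  rw [c, Real.sq_sqrt]
  have := s_sq u
  linarith

lemma c_ge (u : ℝ) : 3 / 5 ≤ c u := by
  apply Real.le_sqrt_of_sq_le
  have := s_sq u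
  linarith

lemma c_pos (u : ℝ) : 0 < c u := lt_of_lt_of_le (by norm_num) (c_ge u)

lemma sg_contDiff : ContDiff ℝ ∞ (fun t => s t * g' t) := s_contDiff.mul g'_contDiff

lemma a_contDiff : ContDiff ℝ ∞ a := (prim_contDiff sg_contDiff).neg

lemma a_hasDerivAt (u : ℝ) : HasDerivAt a (-(s u * g' u)) u :=
  (prim_hasDerivAt sg_contDiff.continuous u).neg

lemma exists_xi : ∃ Ξ : ℝ → ℝ, ContDiff ℝ ∞ Ξ ∧ (∀ x, HasDerivAt Ξ (1 / c (Ξ x)) x) ∧
      (∀ u, Ξ (prim c u) = u) ∧ (∀ x, prim c (Ξ x) = x) :=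
  exists_inverse c c_contDiff (3 / 5) (by norm_num) c_ge

noncomputable def Xi : ℝ → ℝ := exists_xi.choose
lemma Xi_contDiff : ContDiff ℝ ∞ Xi := exists_xi.choose_spec.1
lemma Xi_hasDerivAt (x : ℝ) : HasDerivAt Xi (1 / c (Xi x)) x := exists_xi.choose_spec.2.1 x
lemma Xi_prim (u : ℝ) : Xi (prim c u) = u := exists_xi.choose_spec.2.2.1 u
lemma prim_Xi (x : ℝ) : prim c (Xi x) = x := exists_xi.choose_spec.2.2.2 x

/-- the time as a function of the angle: the density `1 / (1 - sin θ cos θ)` -/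
noncomputable def hh (θ : ℝ) : ℝ := 1 / (1 - sin θ * cos θ)

lemma sc_bound (θ : ℝ) : |sin θ * cos θ| ≤ 1 / 2 := by
  rw [abs_le]
  constructor <;> nlinarith [sin_sq_add_cos_sq θ, sq_nonneg (sin θ + cos θ), sq_nonneg (sin θ - cos θ)]

lemma one_sub_pos (θ : ℝ) : 1 / 2 ≤ 1 - sin θ * cos θ := by
  have := (abs_le.1 (sc_bound θ)).2; linarith

lemma hh_contDiff : ContDiff ℝ ∞ hh := by
  unfold hh
  refine ContDiff.div contDiff_const ?_ fun θ => ?_
  · exact contDiff_const.sub (contDiff_sin.mul contDiff_cos)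
  · have := one_sub_pos θ; linarith

lemma hh_ge (θ : ℝ) : 2 / 3 ≤ hh θ := by
  have h1 := one_sub_pos θ
  have h2 := (abs_le.1 (sc_bound θ)).1
  rw [hh, div_le_div_iff₀ (by norm_num) (by linarith)]
  linarith

lemma exists_th : ∃ Θ : ℝ → ℝ, ContDiff ℝ ∞ Θ ∧ (∀ x, HasDerivAt Θ (1 / hh (Θ x)) x) ∧
      (∀ u, Θ (prim hh u) = u) ∧ (∀ x, prim hh (Θ x) = x) :=
  exists_inverse hh hh_contDiff (2 / 3) (by norm_num) hh_ge

noncomputable def Th : ℝ → ℝ := exists_th.choose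
lemma Th_hasDerivAt (x : ℝ) : HasDerivAt Th (1 - sin (Th x) * cos (Th x)) x := by
  have h := exists_th.choose_spec.2.1 x
  have h2 : 1 / hh (Th x) = 1 - sin (Th x) * cos (Th x) := by rw [hh, one_div_one_div]
  rw [← h2]
  exact h
lemma Th_prim (u : ℝ) : Th (prim hh u) = u := exists_th.choose_spec.2.2.1 u
lemma prim_Th (x : ℝ) : prim hh (Th x) = x := exists_th.choose_spec.2.2.2 x

/-- the period -/
noncomputable def TT : ℝ := prim hh (2 * π)

lemma TT_pos : 0 < TT := by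
  have hm : StrictMono (prim hh) := strictMono_of_deriv_pos fun x => by
    rw [(prim_hasDerivAt hh_contDiff.continuous x).deriv]
    exact lt_of_lt_of_le (by norm_num) (hh_ge x)
  have := hm (show (0 : ℝ) < 2 * π by positivity)
  rwa [prim_zero] at this

lemma hh_periodic : Function.Periodic hh (2 * π) := fun θ => by
  simp [hh]

lemma prim_add (u : ℝ) : prim hh (u + 2 * π) = prim hh u + TT := by
  have hi : ∀ a b, IntervalIntegrable hh volume a b :=
    fun a b => hh_contDiff.continuous.intervalIntegrable a b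
  unfold TT prim
  rw [← intervalIntegral.integral_add_adjacent_intervals (hi 0 u) (hi u (u + 2 * π))]
  congr 1
  have := hh_periodic.intervalIntegral_add_eq u 0
  simpa using this

lemma Th_add (t : ℝ) : Th (t + TT) = Th t + 2 * π := by
  rw [← Th_prim (Th t + 2 * π), prim_add, prim_Th]

end Pool.Agent.X85.OJ
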