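import Mathlib

set_option autoImplicit false

open Real Set Filter Topology MeasureTheory
open scoped ContDiff

namespace Pool.Agent.X85.OJ

/-- the primitive of `h` which vanishes at `0` -/
noncomputable def prim (h : ℝ → ℝ) (u : ℝ) : ℝ := ∫ t in (0 : ℝ)..u, h t

lemma prim_hasDerivAt {h : ℝ → ℝ} (hc : Continuous h) (u : ℝ) : HasDerivAt (prim h) (h u) u :=
  (hc.integral_hasStrictDerivAt 0 u).hasDerivAt

lemma prim_contDiff {h : ℝ → ℝ} (hc : ContDiff ℝ ∞ h) : ContDiff ℝ ∞ (prim h) := by
  rw [contDiff_infty_iff_deriv]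
  refine ⟨fun u => (prim_hasDerivAt hc.continuous u).differentiableAt, ?_⟩
  have : deriv (prim h) = h := funext fun u => (prim_hasDerivAt hc.continuous u).deriv
  rw [this]
  exact hc

lemma prim_zero (h : ℝ → ℝ) : prim h 0 = 0 := by simp [prim]

/-- the inverse function of a primitive of a function which is at least `m > 0` -/
lemma exists_inverse (h : ℝ → ℝ) (hc : ContDiff ℝ ∞ h) (m : ℝ) (hm : 0 < m) (hb : ∀ x, m ≤ h x) :
    ∃ Θ : ℝ → ℝ, ContDiff ℝ ∞ Θ ∧ (∀ x, HasDerivAt Θ (1 / h (Θ x)) x) ∧
      (∀ u, Θ (prim h u) = u) ∧ (∀ x, prim h (Θ x) = x) := by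
  have hd := prim_hasDerivAt hc.continuous
  have hpos : ∀ x, 0 < h x := fun x => lt_of_lt_of_le hm (hb x)
  have hmono : StrictMono (prim h) := strictMono_of_deriv_pos fun x => by
    rw [(hd x).deriv]; exact hpos x
  have hcont : Continuous (prim h) := (prim_contDiff hc).continuous
  have hd2 : ∀ x, HasDerivAt (fun u => prim h u - m * u) (h x - m) x := fun x => by
    have h1 := (hd x).sub ((hasDerivAt_id x).const_mul m)
    rw [mul_one] at h1
    exact h1
  have hm2 : Monotone (fun u => prim h u - m * u) :=
    monotone_of_deriv_nonneg (fun x => (hd2 x).differentiableAt) fun x => by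
      rw [(hd2 x).deriv]; linarith [hb x]
  have htop : Tendsto (prim h) atTop atTop := by
    refine tendsto_atTop_mono' atTop ?_ (tendsto_id.const_mul_atTop hm)
    filter_upwards [eventually_ge_atTop 0] with u hu
    have := hm2 hu
    simp only [prim_zero, mul_zero, sub_zero] at this
    simp only [id_eq]
    linarith
  have hbot : Tendsto (prim h) atBot atBot := by
    refine tendsto_atBot_mono' atBot ?_ (tendsto_id.const_mul_atBot hm)
    filter_upwards [eventually_le_atBot 0] with u hu
    have := hm2 hu
    simp only [prim_zero, mul_zero, sub_zero] at this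
    simp only [id_eq]
    linarith
  have hsurj : Function.Surjective (prim h) := hcont.surjective htop hbot
  let e : ℝ ≃o ℝ := StrictMono.orderIsoOfSurjective (prim h) hmono hsurj
  let f : ℝ ≃ₜ ℝ := e.toHomeomorph
  have hf : ∀ u, f u = prim h u := fun u => rfl
  have hl : ∀ u, f.symm (prim h u) = u := fun u => by rw [← hf, f.symm_apply_apply]
  have hr : ∀ x, prim h (f.symm x) = x := fun x => by rw [← hf, f.apply_symm_apply]
  refine ⟨f.symm, ?_, ?_, hl, hr⟩
  · exact f.contDiff_symm_deriv (f' := h) (fun x => (hpos x).ne') hd (prim_contDiff hc)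
  · intro x
    rw [one_div]
    exact HasDerivAt.of_local_left_inverse f.symm.continuous.continuousAt (hd _) (hpos _).ne'
      (Eventually.of_forall hr)

/-- a monotone periodic function is constant -/
lemma const_of_mono_periodic {E : ℝ → ℝ} (hE : Monotone E) {T : ℝ} (hT : 0 < T)
    (hp : Function.Periodic E T) (t : ℝ) : E t = E 0 := by
  obtain ⟨n, hn⟩ := exists_nat_ge (|t| / T)
  have h1 : |t| ≤ n * T := by rwa [div_le_iff₀ hT] at hn
  have h2 : E (n * T) = E 0 := by
    have := (hp.nat_mul n) 0
    simpa using this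
  have h3 : E (-(n * T)) = E 0 := by
    have := (hp.nat_mul n) (-(n * T))
    simpa using this.symm
  apply le_antisymm
  · rw [← h2]; exact hE ((le_abs_self t).trans h1)
  · rw [← h3]; exact hE (by linarith [neg_abs_le t])

end Pool.Agent.X85.OJ
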