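import Pool.Agent.X85.OJ.Field

set_option autoImplicit false

open Real Set Filter Topology MeasureTheory
open scoped ContDiff

namespace Pool.Agent.X85.OJ

/-- the solution on the closed orbit -/
noncomputable def z1 (t : ℝ) : ℝ × ℝ :=
  (prim c (sin (Th t)), a (sin (Th t)) - (cos (Th t) - sin (Th t) * cos (Th t) ^ 2))

lemma z1_Xi (t : ℝ) : Xi (z1 t).1 = sin (Th t) := Xi_prim _

lemma z1_hasDerivAt (t : ℝ) : HasDerivAt z1 (P (z1 t).1 (z1 t).2, Q (z1 t).1 (z1 t).2) t := by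
  have hT := Th_hasDerivAt t
  have hsin := (hasDerivAt_sin (Th t)).comp t hT
  have hcos := (hasDerivAt_cos (Th t)).comp t hT
  have h1 := (prim_hasDerivAt c_contDiff.continuous (sin (Th t))).comp t hsin
  have h2 := ((a_hasDerivAt (sin (Th t))).comp t hsin).sub (hcos.sub (hsin.mul (hcos.pow 2)))
  have h := h1.prodMk h2
  have e1 : P (z1 t).1 (z1 t).2 = c (sin (Th t)) * (cos (Th t) * (1 - sin (Th t) * cos (Th t))) := by
    unfold P
    rw [z1_Xi]
    change c (sin (Th t)) * (a (sin (Th t)) -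
      (a (sin (Th t)) - (cos (Th t) - sin (Th t) * cos (Th t) ^ 2))) = _
    ring
  have e2 : Q (z1 t).1 (z1 t).2 = g (sin (Th t)) + s (sin (Th t)) *
      (cos (Th t) - sin (Th t) * cos (Th t) ^ 2) := by
    unfold Q
    rw [z1_Xi]
    change g (sin (Th t)) + s (sin (Th t)) * (a (sin (Th t)) -
      (a (sin (Th t)) - (cos (Th t) - sin (Th t) * cos (Th t) ^ 2))) = _
    ring
  rw [e1, e2]
  refine HasDerivAt.congr_deriv (f := z1) h ?_
  refine Prod.ext ?_ ?_
  · rfl
  · simp only [Function.comp_apply, Pi.pow_apply, Pi.mul_apply]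
    have hs := s_mul (sin (Th t))
    have hsc := sin_sq_add_cos_sq (Th t)
    unfold g
    generalize s (sin (Th t)) = S at *
    generalize g' (sin (Th t)) = G at *
    generalize sin (Th t) = x at *
    generalize cos (Th t) = y at *
    push_cast
    have hx : y ^ 2 = 1 - x ^ 2 := by linarith
    linear_combination (-(y * (1 - x * y))) * hs + ((1 - x * y) * y - x ^ 3) * hx

lemma z1_periodic (t : ℝ) : z1 (t + TT) = z1 t := by
  simp only [z1, Th_add, sin_add_two_pi, cos_add_two_pi]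

lemma z1_nonconst : ¬ ∃ p, ∀ t, z1 t = p := by
  rintro ⟨p, hp⟩
  have h1 := z1_Xi (prim hh 0)
  have h2 := z1_Xi (prim hh (π / 2))
  rw [hp, Th_prim] at h1 h2
  rw [h1, sin_pi_div_two, sin_zero] at h2
  norm_num at h2

/-- the cofactor identity: along every solution `H' = 2 ξ² H` -/
noncomputable def HH (x y : ℝ) : ℝ :=
  ((a (Xi x) - y) + Xi x * (1 - Xi x ^ 2)) ^ 2 - (1 - Xi x ^ 2)

section

variable {z : ℝ → ℝ × ℝ} (hz : ∀ t, HasDerivAt z (P (z t).1 (z t).2, Q (z t).1 (z t).2) t)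

include hz

lemma x_hasDerivAt (t : ℝ) : HasDerivAt (fun t => (z t).1) (P (z t).1 (z t).2) t :=
  (hasFDerivAt_fst (𝕜 := ℝ) (p := z t)).comp_hasDerivAt t (hz t)

lemma y_hasDerivAt (t : ℝ) : HasDerivAt (fun t => (z t).2) (Q (z t).1 (z t).2) t :=
  (hasFDerivAt_snd (𝕜 := ℝ) (p := z t)).comp_hasDerivAt t (hz t)

lemma xi_hasDerivAt (t : ℝ) :
    HasDerivAt (fun t => Xi (z t).1) (a (Xi (z t).1) - (z t).2) t := by
  have h := (Xi_hasDerivAt (z t).1).comp t (x_hasDerivAt hz t)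
  refine h.congr_deriv ?_
  unfold P
  have := (c_pos (Xi (z t).1)).ne'
  field_simp

lemma w_hasDerivAt (t : ℝ) :
    HasDerivAt (fun t => a (Xi (z t).1) - (z t).2)
      (-(1 - 4 * Xi (z t).1 ^ 2) * (a (Xi (z t).1) - (z t).2) - g (Xi (z t).1)) t := by
  have h := ((a_hasDerivAt (Xi (z t).1)).comp t (xi_hasDerivAt hz t)).sub (y_hasDerivAt hz t)
  refine h.congr_deriv ?_
  unfold Q
  have hs := s_mul (Xi (z t).1)
  linear_combination (-(a (Xi (z t).1) - (z t).2)) * hs

lemma HH_hasDerivAt (t : ℝ) :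
    HasDerivAt (fun t => HH (z t).1 (z t).2)
      (2 * Xi (z t).1 ^ 2 * HH (z t).1 (z t).2) t := by
  have hx := xi_hasDerivAt hz t
  have hw := w_hasDerivAt hz t
  have h := ((hw.add (hx.mul ((hx.pow 2).const_sub 1))).pow 2).sub ((hx.pow 2).const_sub 1)
  refine h.congr_deriv ?_
  unfold HH g
  simp only [Pi.add_apply, Pi.mul_apply, Pi.pow_apply]
  push_cast
  ring

end

end Pool.Agent.X85.OJ
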